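import Pool.Agent.Mob.Stmts3

/-!
# Module EXP: expansion of the finite volume resolvent in eigenvectors
-/

set_option autoImplicit false
set_option linter.unusedSectionVars false

open MeasureTheory ProbabilityTheory Function

open scoped ENNReal BigOperators InnerProductSpace

noncomputable section

namespace Pool.Agent.Mob.H47

open Pool.Agent.Anderson Pool.Agent.Loc Pool.Agent.Helper54.Bal

variable {d : ℕ}

theorem hm_herm (V : Site d → ℝ) (Λ : Finset (Site d)) : (HM V Λ).IsHermitian := by
  unfold Matrix.IsHermitian
  rw [Matrix.conjTranspose_eq_transpose_of_trivial]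
  exact HM_symm V Λ

/-- completeness of an orthonormal basis, in coordinates -/
theorem complete {n : Type*} [Fintype n] [DecidableEq n]
    (b : OrthonormalBasis n ℝ (EuclideanSpace ℝ n)) (x y : n) :
    ∑ j, b j x * b j y = if x = y then 1 else 0 := by
  have h := b.sum_inner_mul_inner (EuclideanSpace.single x (1 : ℝ))
    (EuclideanSpace.single y (1 : ℝ))
  rw [EuclideanSpace.inner_single_left] at h
  have h2 : ∀ j, ⟪EuclideanSpace.single x (1 : ℝ), b j⟫_ℝ * ⟪b j, EuclideanSpace.single y (1 : ℝ)⟫_ℝ
      = b j x * b j y := by
    intro j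
    rw [EuclideanSpace.inner_single_left, EuclideanSpace.inner_single_right]
    simp
  rw [Finset.sum_congr rfl fun j _ => h2 j] at h
  rw [h]
  simp

theorem exp_ : ExpStmt := by
  intro d V Λ
  classical
  set b := (hm_herm V Λ).eigenvectorBasis with hb
  set ev := (hm_herm V Λ).eigenvalues with hev
  obtain ⟨φ, hin, hout⟩ : ∃ F : Λ → Site d → ℝ, (∀ j x, ∀ h : x ∈ Λ, F j x = b j ⟨x, h⟩) ∧
      ∀ j x, x ∉ Λ → F j x = 0 :=
    ⟨fun j x => if h : x ∈ Λ then b j ⟨x, h⟩ else 0, fun j x h => by simp [h],
      fun j x h => by simp [h]⟩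
  have hcomp := complete b
  have heig : ∀ j, ∀ x : Λ, (HM V Λ).mulVec (b j) x = ev j * b j x := by
    intro j x
    have h1 := congrFun ((hm_herm V Λ).mulVec_eigenvectorBasis j) x
    rw [← hb, ← hev] at h1
    rw [h1]
    simp
  refine ⟨ev, φ, fun j x hx => hout j x hx, ?_, ?_, ?_, ?_, ?_⟩
  · intro j
    have h1 := b.norm_eq_one j
    have h2 : ‖b j‖ ^ 2 = 1 := by rw [h1]; norm_num
    rw [EuclideanSpace.norm_sq_eq] at h2
    rw [← h2, ← Finset.sum_coe_sort Λ (fun x => φ j x ^ 2)]
    apply Finset.sum_congr rfl
    intro x _
    rw [hin j x x.2, Real.norm_eq_abs, sq_abs]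
  · intro x hx
    have h1 := hcomp ⟨x, hx⟩ ⟨x, hx⟩
    rw [if_pos rfl] at h1
    rw [← h1]
    apply Finset.sum_congr rfl
    intro j _
    rw [hin j x hx]
    ring
  · intro j x hx
    have h1 := heig j ⟨x, hx⟩
    rw [lap_eq_sum _ x (box x 1 ∪ Λ) Finset.subset_union_left,
      ← Finset.sum_subset (Finset.subset_union_right (s₁ := box x 1) (s₂ := Λ))]
    · have h2 : (HM V Λ).mulVec (b j) ⟨x, hx⟩ =
          (∑ y ∈ Λ, hop x y * φ j y) + V x * b j ⟨x, hx⟩ := by
        rw [← Finset.sum_coe_sort Λ (fun y => hop x y * φ j y)]
        simp only [Matrix.mulVec, dotProduct, HM, Matrix.of_apply]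
        have h3 : ∀ y : Λ, (hop x (y : Site d) + if (⟨x, hx⟩ : Λ) = y then V x else 0) *
            b j y = hop x (y : Site d) * φ j y +
              (if (⟨x, hx⟩ : Λ) = y then V x * b j ⟨x, hx⟩ else 0) := by
          intro y
          rw [hin j y y.2]
          by_cases h : (⟨x, hx⟩ : Λ) = y
          · subst h; simp; ring
          · simp [h]
        rw [Finset.sum_congr rfl fun y _ => h3 y, Finset.sum_add_distrib]
        simp
      rw [h2] at h1
      rw [hin j x hx]
      have h4 := congrArg (fun t : ℝ => (t : ℂ)) h1
      push_cast at h4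
      exact h4
    · intro y _ hy
      rw [hout j y hy]
      simp
  · intro E
    constructor
    · intro h0
      obtain ⟨v, hv, hv0⟩ := Matrix.exists_mulVec_eq_zero_iff.2 h0
      by_contra hc
      push Not at hc
      apply hv
      have hz : ∀ j, ∑ x, b j x * v x = 0 := by
        intro j
        have h1 : ∑ x, (HM V Λ).mulVec (b j) x * v x = ∑ x, b j x * (HM V Λ).mulVec v x := by
          have h2 : (HM V Λ).mulVec (b j) ⬝ᵥ v = (b j : Λ → ℝ) ⬝ᵥ (HM V Λ).mulVec v := by
            rw [Matrix.dotProduct_mulVec, ← Matrix.mulVec_transpose, HM_symm]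
          exact h2
        have h3 : ∀ x, (HM V Λ).mulVec v x = E * v x := by
          intro x
          have h4 := congrFun hv0 x
          unfold RM at h4
          rw [Matrix.sub_mulVec, Matrix.smul_mulVec, Matrix.one_mulVec] at h4
          simp only [Pi.sub_apply, Pi.smul_apply, smul_eq_mul, Pi.zero_apply] at h4
          linarith
        simp_rw [heig j, h3] at h1
        have h5 : (ev j - E) * ∑ x, b j x * v x = 0 := by
          rw [Finset.mul_sum]
          have h6 : ∑ x, ev j * b j x * v x - ∑ x, b j x * (E * v x) = 0 := by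
            rw [h1, sub_self]
          rw [← Finset.sum_sub_distrib] at h6
          rw [← h6]
          apply Finset.sum_congr rfl
          intro x _
          ring
        rcases mul_eq_zero.1 h5 with h6 | h6
        · exact absurd (by linarith) (hc j)
        · exact h6
      funext y
      have h7 : v y = ∑ x, (∑ j, b j x * b j y) * v x := by
        rw [Finset.sum_congr rfl fun x _ => by rw [hcomp x y]]
        simp
      rw [h7]
      simp_rw [Finset.sum_mul]
      rw [Finset.sum_comm]
      rw [Pi.zero_apply]
      apply Finset.sum_eq_zero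
      intro j _
      have h8 := hz j
      calc ∑ x, b j x * b j y * v x = b j y * ∑ x, b j x * v x := by
            rw [Finset.mul_sum]
            apply Finset.sum_congr rfl
            intro x _
            ring
        _ = 0 := by rw [h8, mul_zero]
    · rintro ⟨j, hj⟩
      apply Matrix.exists_mulVec_eq_zero_iff.1
      refine ⟨fun i => b j i, ?_, ?_⟩
      · intro h0
        have h3 := b.norm_eq_one j
        have h4 : b j = 0 := by
          ext i
          exact congrFun h0 i
        rw [h4, norm_zero] at h3
        norm_num at h3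
      · unfold RM
        rw [Matrix.sub_mulVec, Matrix.smul_mulVec, Matrix.one_mulVec, sub_eq_zero]
        funext i
        have h4 := heig j i
        rw [Pi.smul_apply, smul_eq_mul, ← hj]
        exact h4.symm
  · intro z hz x y
    by_cases hxy : x ∈ Λ ∧ y ∈ Λ
    · unfold gz
      rw [dif_pos hxy]
      set N : Matrix Λ Λ ℂ := Matrix.of fun u w => ∑ j, ((b j u * b j w : ℝ) : ℂ) / (z - ev j)
        with hN
      have hmul : (z • (1 : Matrix Λ Λ ℂ) - HC V Λ) * N = 1 := by
        ext u w
        rw [Matrix.mul_apply]
        have h1 : ∀ v : Λ, (z • (1 : Matrix Λ Λ ℂ) - HC V Λ) u v * N v w =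
            ∑ j, ((z • (1 : Matrix Λ Λ ℂ) - HC V Λ) u v * (b j v : ℂ)) *
              ((b j w : ℂ) / (z - ev j)) := by
          intro v
          rw [hN, Matrix.of_apply, Finset.mul_sum]
          apply Finset.sum_congr rfl
          intro j _
          push_cast
          ring
        rw [Finset.sum_congr rfl fun v _ => h1 v, Finset.sum_comm]
        have h2 : ∀ j, ∑ v, (z • (1 : Matrix Λ Λ ℂ) - HC V Λ) u v * (b j v : ℂ) *
            ((b j w : ℂ) / (z - ev j)) = ((b j u * b j w : ℝ) : ℂ) := by
          intro j
          rw [← Finset.sum_mul]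
          have h3 : ∑ v, (z • (1 : Matrix Λ Λ ℂ) - HC V Λ) u v * (b j v : ℂ) =
              (z - ev j) * (b j u : ℂ) := by
            have h4 := congrArg (fun t : ℝ => (t : ℂ)) (heig j u)
            simp only [Matrix.mulVec, dotProduct] at h4
            push_cast at h4
            have h5 : ∀ v : Λ, (z • (1 : Matrix Λ Λ ℂ) - HC V Λ) u v * (b j v : ℂ) =
                (if u = v then z * (b j u : ℂ) else 0) - (HM V Λ u v : ℂ) * (b j v : ℂ) := by
              intro v
              rw [Matrix.sub_apply, Matrix.smul_apply, Matrix.one_apply, smul_eq_mul]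
              unfold HC
              rw [Matrix.map_apply]
              by_cases h : u = v
              · subst h; simp; ring
              · simp [h]
            rw [Finset.sum_congr rfl fun v _ => h5 v, Finset.sum_sub_distrib, h4]
            simp
            ring
          rw [h3]
          have h6 : z - (ev j : ℂ) ≠ 0 := sub_ne_zero.2 (hz j)
          push_cast
          field_simp
        rw [Finset.sum_congr rfl fun j _ => h2 j, ← Complex.ofReal_sum, hcomp u w,
          Matrix.one_apply]
        split_ifs <;> simp
      rw [Matrix.inv_eq_right_inv hmul, hN, Matrix.of_apply]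
      apply Finset.sum_congr rfl
      intro j _
      rw [hin j x hxy.1, hin j y hxy.2]
    · unfold gz
      rw [dif_neg hxy]
      symm
      apply Finset.sum_eq_zero
      intro j _
      rw [not_and_or] at hxy
      rcases hxy with h | h
      · rw [hout j x h]
        simp
      · rw [hout j y h]
        simp

end Pool.Agent.Mob.H47
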