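import Pool.Agent.Mob.Stmts3
import Pool.Agent.Helper75_Mob.Tbx

/-!
# Module TBP: two distant cubes, the probability at a given scale
-/

set_option autoImplicit false
set_option linter.unusedSectionVars false

open MeasureTheory ProbabilityTheory Function

open scoped ENNReal BigOperators

noncomputable section

namespace Pool.Agent.Mob.H47

open Pool.Agent.Anderson Pool.Agent.Loc Pool.Agent.Helper54.Bal Pool.Agent.Mob.H75

theorem tbp : TbpStmt := by
  intro d ν _ a b C μ h L x y hxy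
  classical
  rcases lt_or_ge b a with hab | hab
  · have h0 : {V : Site d → ℝ | ∃ E ∈ Set.Icc a b, ¬ FGood V L x E μ ∧ ¬ FGood V L y E μ} = ∅ := by
      ext V
      simp only [Set.mem_ofPred_eq, Set.mem_empty_iff_false, iff_false]
      rintro ⟨E, hE, -⟩
      exact absurd (hE.1.trans hE.2) (not_le.2 hab)
    rw [h0, measure_empty]
    exact bot_le
  set K : ℝ≥0∞ := ENNReal.ofReal (C * Real.exp (-μ * L)) with hK
  have hsub : {V : Site d → ℝ | ∃ E ∈ Set.Icc a b, ¬ FGood V L x E μ ∧ ¬ FGood V L y E μ} ⊆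
      ⋃ u ∈ box x L, ⋃ v ∈ box y L, {V | (sd x u = L ∧ sd y v = L) ∧
        ∃ E ∈ Set.Icc a b, ¬ Good V (box x L) E x u (Real.exp (-μ * L)) ∧
          ¬ Good V (box y L) E y v (Real.exp (-μ * L))} := by
    rintro V ⟨E, hE, hb1, hb2⟩
    unfold FGood at hb1 hb2
    push Not at hb1 hb2
    obtain ⟨u, hu', hu''⟩ := hb1
    obtain ⟨v, hv', hv''⟩ := hb2
    simp only [Set.mem_iUnion, exists_prop]
    exact ⟨u, mem_box.2 hu'.le, v, mem_box.2 hv'.le, ⟨hu', hv'⟩, E, hE, hu'', hv''⟩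
  have hloc : ∀ (x u : Site d) (E : ℝ), sd x u = L → E ∈ Set.Icc a b →
      PP d ν {V | ¬ Good V (box x L) E x u (Real.exp (-μ * L))} ≤ K := by
    intro x u E hu hE
    refine (PP_le_PL (Λ := box x L) ?_).trans (h x u L E hE hu)
    intro V V' hVV
    exact not_congr (H75.good_congr hVV E x u _)
  have hx1 : x ∈ box x L := mem_box.2 (by rw [sd_self]; omega)
  have hy1 : y ∈ box y L := mem_box.2 (by rw [sd_self]; omega)
  have hdis : Disjoint (box x L) (box y L) := by
    rw [Finset.disjoint_left]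
    intro z hz1 hz2
    have z1 := mem_box.1 hz1
    have z2 := mem_box.1 hz2
    have z3 := sd_triangle x z y
    rw [sd_comm z y] at z3
    omega
  have hAb : ∀ u v, PP d ν {V | (sd x u = L ∧ sd y v = L) ∧
        ∃ E ∈ Set.Icc a b, ¬ Good V (box x L) E x u (Real.exp (-μ * L)) ∧
          ¬ Good V (box y L) E y v (Real.exp (-μ * L))} ≤
      ((1 + 4 * (2 * L + 1) ^ d : ℕ) : ℝ≥0∞) * K := by
    intro u v
    by_cases hc : (sd x u = L ∧ sd y v = L)
    · obtain ⟨hu', hv'⟩ := hc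
      have := prob_pair_I hdis hx1 (mem_box.2 hu'.le) hy1 (mem_box.2 hv'.le)
        (Real.exp_pos (-μ * L)) hab (fun E hE => hloc x u E hu' hE)
        (fun E hE => hloc y v E hv' hE)
      refine (measure_mono ?_).trans (this.trans ?_)
      · intro V hV
        exact hV.2
      · rw [card_box, card_box]
        refine mul_le_mul' (Nat.cast_le.2 ?_) le_rfl
        omega
    · have : {V : Site d → ℝ | (sd x u = L ∧ sd y v = L) ∧
          ∃ E ∈ Set.Icc a b, ¬ Good V (box x L) E x u (Real.exp (-μ * L)) ∧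
            ¬ Good V (box y L) E y v (Real.exp (-μ * L))} = ∅ := by
        ext V
        simp only [Set.mem_ofPred_eq, Set.mem_empty_iff_false, iff_false]
        intro h'
        exact hc h'.1
      rw [this, measure_empty]
      exact bot_le
  have e1 : PP d ν {V : Site d → ℝ | ∃ E ∈ Set.Icc a b, ¬ FGood V L x E μ ∧ ¬ FGood V L y E μ} ≤
      (((2 * L + 1) ^ d : ℕ) : ℝ≥0∞) * (((2 * L + 1) ^ d : ℕ) *
        (((1 + 4 * (2 * L + 1) ^ d : ℕ) : ℝ≥0∞) * K)) := by
    refine (measure_mono hsub).trans ?_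
    refine (measure_biUnion_finset_le _ _).trans ?_
    refine (Finset.sum_le_card_nsmul _ _ _ fun u _ => ?_).trans_eq
      (by rw [card_box, nsmul_eq_mul])
    refine (measure_biUnion_finset_le _ _).trans ?_
    exact (Finset.sum_le_card_nsmul _ _ _ fun v _ => hAb u v).trans_eq
      (by rw [card_box, nsmul_eq_mul])
  refine e1.trans ?_
  have hK' : K ≤ ENNReal.ofReal (|C| * Real.exp (-μ * L)) := by
    apply ENNReal.ofReal_le_ofReal
    exact mul_le_mul_of_nonneg_right (le_abs_self C) (Real.exp_pos _).le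
  have hnat : (2 * L + 1) ^ d * ((2 * L + 1) ^ d * (1 + 4 * (2 * L + 1) ^ d)) ≤
      5 * (2 * L + 1) ^ (3 * d) := by
    have n4 : 1 + 4 * (2 * L + 1) ^ d ≤ 5 * (2 * L + 1) ^ d := by
      have : 1 ≤ (2 * L + 1) ^ d := Nat.one_le_pow _ _ (by omega)
      omega
    calc (2 * L + 1) ^ d * ((2 * L + 1) ^ d * (1 + 4 * (2 * L + 1) ^ d))
        ≤ (2 * L + 1) ^ d * ((2 * L + 1) ^ d * (5 * (2 * L + 1) ^ d)) := by gcongr
      _ = _ := by ring
  have e2 : (((2 * L + 1) ^ d : ℕ) : ℝ≥0∞) * (((2 * L + 1) ^ d : ℕ) *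
        (((1 + 4 * (2 * L + 1) ^ d : ℕ) : ℝ≥0∞) * K)) ≤
      ((5 * (2 * L + 1) ^ (3 * d) : ℕ) : ℝ≥0∞) *
        ENNReal.ofReal (|C| * Real.exp (-μ * L)) := by
    calc (((2 * L + 1) ^ d : ℕ) : ℝ≥0∞) * (((2 * L + 1) ^ d : ℕ) *
        (((1 + 4 * (2 * L + 1) ^ d : ℕ) : ℝ≥0∞) * K))
        = (((2 * L + 1) ^ d * ((2 * L + 1) ^ d * (1 + 4 * (2 * L + 1) ^ d)) : ℕ) : ℝ≥0∞) * K := by
          push_cast; ring
      _ ≤ _ := by gcongr
  refine e2.trans (le_of_eq ?_)
  rw [← ENNReal.ofReal_natCast, ← ENNReal.ofReal_mul (by positivity)]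
  congr 1
  push_cast
  ring

end Pool.Agent.Mob.H47
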